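import Pool.Agent.V5helper26.IR.Stm

set_option autoImplicit false

open Finset Filter Topology
open scoped Classical

namespace Pool.Agent.V5helper26.IR

theorem ABS_sub (B v t : ℕ) (hB : v + 1 ≤ B) :
    ((range B).filter fun s => s + t ≤ v).card = v + 1 - t := by
  have : (range B).filter (fun s => s + t ≤ v) = range (v + 1 - t) := by
    ext s
    simp only [mem_filter, mem_range]
    omega
  rw [this, card_range]

theorem ABS_tri (n : ℕ) : 2 * ∑ t ∈ range n, (n - t) = n * (n + 1) := by
  induction n with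
  | zero => simp
  | succ n ih =>
    rw [Finset.sum_range_succ']
    have : ∑ k ∈ range n, (n + 1 - (k + 1)) = ∑ k ∈ range n, (n - k) :=
      Finset.sum_congr rfl fun k _ => by omega
    rw [this, Nat.mul_add, ih]
    simp only [Nat.sub_zero]
    ring

theorem ABS_sq (B v : ℕ) (hB : v + 1 ≤ B) : (v + 1) ^ 2 ≤ 2 * ∑ t ∈ range B, (v + 1 - t) := by
  have h1 : ∑ t ∈ range (v + 1), (v + 1 - t) ≤ ∑ t ∈ range B, (v + 1 - t) :=
    Finset.sum_le_sum_of_subset (Finset.range_mono hB)
  have h2 := ABS_tri (v + 1)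
  nlinarith

/-- Job ABS. -/
theorem t_ABS : S_ABS := by
  intro ι S v hsub
  set N : ℕ → ℕ := fun t => (S.filter fun i => t ≤ v i).card with hN
  set A : ℕ := ∑ i ∈ S, (v i + 1) with hA
  set B : ℕ := S.sup v + 1 with hB
  have hvB : ∀ i ∈ S, v i + 1 ≤ B := fun i hi => Nat.succ_le_succ (Finset.le_sup hi)
  -- double counting
  have hdc : ∀ t : ℕ, ∑ s ∈ range B, N (s + t) = ∑ i ∈ S, (v i + 1 - t) := by
    intro t
    simp only [hN, Finset.card_filter]
    rw [Finset.sum_comm]
    refine Finset.sum_congr rfl fun i hi => ?_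
    rw [← Finset.card_filter, ABS_sub B (v i) t (hvB i hi)]
  have hA0 : ∑ s ∈ range B, N s = A := by
    have := hdc 0
    simpa using this
  have hkey : ∀ t : ℕ, S.card * ∑ i ∈ S, (v i + 1 - t) ≤ N t * A := by
    intro t
    rw [← hdc t, ← hA0, Finset.mul_sum, Finset.mul_sum]
    refine Finset.sum_le_sum fun s _ => ?_
    have := hsub s t
    calc S.card * N (s + t) ≤ N s * N t := this
      _ = N t * N s := mul_comm _ _
  refine ⟨fun t => ?_, ?_, ?_⟩
  · have h1 : A ≤ ∑ i ∈ S, (v i + 1 - t) + t * S.card := by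
      have : A ≤ ∑ i ∈ S, ((v i + 1 - t) + t) := Finset.sum_le_sum fun i _ => by omega
      rw [Finset.sum_add_distrib, Finset.sum_const, smul_eq_mul, mul_comm S.card t] at this
      exact this
    have h2 := hkey t
    have h3 : N t + (S.filter fun i => v i < t).card = S.card := by
      have := Finset.card_filter_add_card_filter_not (s := S) (fun i => t ≤ v i)
      simpa only [not_le] using this
    have h4 : S.card * A ≤ N t * A + t * S.card ^ 2 := by
      calc S.card * A ≤ S.card * (∑ i ∈ S, (v i + 1 - t) + t * S.card) := Nat.mul_le_mul_left _ h1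
        _ = S.card * ∑ i ∈ S, (v i + 1 - t) + t * S.card ^ 2 := by ring
        _ ≤ N t * A + t * S.card ^ 2 := Nat.add_le_add_right h2 _
    have h5 : S.card * A = N t * A + A * (S.filter fun i => v i < t).card := by
      rw [← h3]; ring
    omega
  · have h1 : S.card * ∑ t ∈ range B, ∑ i ∈ S, (v i + 1 - t) ≤ A * A := by
      rw [Finset.mul_sum]
      calc ∑ t ∈ range B, S.card * ∑ i ∈ S, (v i + 1 - t) ≤ ∑ t ∈ range B, N t * A :=
            Finset.sum_le_sum fun t _ => hkey t
        _ = A * A := by rw [← Finset.sum_mul, hA0]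
    have h2 : ∑ i ∈ S, (v i + 1) ^ 2 ≤ 2 * ∑ t ∈ range B, ∑ i ∈ S, (v i + 1 - t) := by
      rw [Finset.sum_comm, Finset.mul_sum]
      exact Finset.sum_le_sum fun i hi => ABS_sq B (v i) (hvB i hi)
    calc S.card * ∑ i ∈ S, (v i + 1) ^ 2 ≤ S.card * (2 * ∑ t ∈ range B, ∑ i ∈ S, (v i + 1 - t)) :=
          Nat.mul_le_mul_left _ h2
      _ = 2 * (S.card * ∑ t ∈ range B, ∑ i ∈ S, (v i + 1 - t)) := by ring
      _ ≤ 2 * (A * A) := Nat.mul_le_mul_left _ h1
      _ = 2 * A ^ 2 := by ring
  · intro T hT k
    induction k with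
    | zero => simp
    | succ k ih =>
      rcases Nat.eq_zero_or_pos S.card with h0 | h0
      · have : (S.filter fun i => (k + 1) * T ≤ v i).card ≤ S.card := Finset.card_filter_le _ _
        rw [h0] at this
        rw [Nat.le_zero.mp this]
        simp
      · have h1 := hsub (k * T) T
        have h2 : k * T + T = (k + 1) * T := by ring
        rw [h2] at h1
        refine Nat.le_of_mul_le_mul_left ?_ h0
        calc S.card * (2 ^ (k + 1) * (S.filter fun i => (k + 1) * T ≤ v i).card)
            = 2 ^ (k + 1) * (S.card * (S.filter fun i => (k + 1) * T ≤ v i).card) := by ring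
          _ ≤ 2 ^ (k + 1) * ((S.filter fun i => k * T ≤ v i).card *
              (S.filter fun i => T ≤ v i).card) := Nat.mul_le_mul_left _ h1
          _ = (2 ^ k * (S.filter fun i => k * T ≤ v i).card) *
              (2 * (S.filter fun i => T ≤ v i).card) := by ring
          _ ≤ S.card * S.card := Nat.mul_le_mul ih hT

end Pool.Agent.V5helper26.IR
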