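import Pool.Agent.V5helper26.IR.Stm

set_option autoImplicit false

open Finset Filter Topology
open scoped Classical

namespace Pool.Agent.V5helper26.IR

section
variable {α : Type}

/-- elements with rank in a group outside of `Q` -/
theorem CELL_bad1 (C : Finset α) (b : ℕ) (l : α → ℕ) (Q : Finset ℕ) (hb : 1 ≤ b)
    (hl : Set.InjOn l (C : Set α)) (hlt : ∀ x ∈ C, l x < 8 * b ^ 3)
    (hQ : 8 * (range b \ Q).card ≤ b) :
    (C.filter fun x => l x / (8 * b ^ 2) ∉ Q).card ≤ b ^ 3 := by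
  have hL : 0 < 8 * b ^ 2 := by positivity
  have h1 : (C.filter fun x => l x / (8 * b ^ 2) ∉ Q).card ≤
      ((range b \ Q) ×ˢ range (8 * b ^ 2)).card := by
    refine Finset.card_le_card_of_injOn (fun x => (l x / (8 * b ^ 2), l x % (8 * b ^ 2))) ?_ ?_
    · intro x hx
      have hx' := mem_filter.mp (Finset.mem_coe.mp hx)
      refine Finset.mem_coe.mpr (mem_product.mpr ⟨mem_sdiff.mpr ⟨mem_range.mpr ?_, hx'.2⟩,
        mem_range.mpr (Nat.mod_lt _ hL)⟩)
      refine Nat.div_lt_of_lt_mul ?_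
      calc l x < 8 * b ^ 3 := hlt x hx'.1
        _ = 8 * b ^ 2 * b := by ring
    · intro x hx y hy hxy
      have hx' := (mem_filter.mp (Finset.mem_coe.mp hx)).1
      have hy' := (mem_filter.mp (Finset.mem_coe.mp hy)).1
      simp only [Prod.mk.injEq] at hxy
      refine hl (Finset.mem_coe.mpr hx') (Finset.mem_coe.mpr hy') ?_
      rw [← Nat.div_add_mod (l x) (8 * b ^ 2), ← Nat.div_add_mod (l y) (8 * b ^ 2), hxy.1, hxy.2]
  rw [card_product, card_range] at h1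
  calc (C.filter fun x => l x / (8 * b ^ 2) ∉ Q).card ≤ (range b \ Q).card * (8 * b ^ 2) := h1
    _ = (8 * (range b \ Q).card) * b ^ 2 := by ring
    _ ≤ b * b ^ 2 := Nat.mul_le_mul_right _ hQ
    _ = b ^ 3 := by ring

/-- elements which are among the last ones of their group -/
theorem CELL_bad2 (C : Finset α) (b : ℕ) (l : α → ℕ) (hb : 1 ≤ b)
    (hl : Set.InjOn l (C : Set α)) (hlt : ∀ x ∈ C, l x < 8 * b ^ 3) :
    (C.filter fun x => ¬ l x % (8 * b ^ 2) < 7 * b ^ 2).card ≤ b ^ 3 := by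
  have hL : 0 < 8 * b ^ 2 := by positivity
  have h1 : (C.filter fun x => ¬ l x % (8 * b ^ 2) < 7 * b ^ 2).card ≤
      (range b ×ˢ range (b ^ 2)).card := by
    refine Finset.card_le_card_of_injOn
      (fun x => (l x / (8 * b ^ 2), l x % (8 * b ^ 2) - 7 * b ^ 2)) ?_ ?_
    · intro x hx
      have hx' := mem_filter.mp (Finset.mem_coe.mp hx)
      have h2 := Nat.mod_lt (l x) hL
      refine Finset.mem_coe.mpr (mem_product.mpr ⟨mem_range.mpr ?_, mem_range.mpr ?_⟩)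
      · refine Nat.div_lt_of_lt_mul ?_
        calc l x < 8 * b ^ 3 := hlt x hx'.1
          _ = 8 * b ^ 2 * b := by ring
      · have := hx'.2
        have h3 : 0 < b ^ 2 := by positivity
        simp only
        omega
    · intro x hx y hy hxy
      have hx' := mem_filter.mp (Finset.mem_coe.mp hx)
      have hy' := mem_filter.mp (Finset.mem_coe.mp hy)
      simp only [Prod.mk.injEq] at hxy
      refine hl (Finset.mem_coe.mpr hx'.1) (Finset.mem_coe.mpr hy'.1) ?_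
      have h2 : l x % (8 * b ^ 2) = l y % (8 * b ^ 2) := by
        have := hx'.2
        have := hy'.2
        omega
      rw [← Nat.div_add_mod (l x) (8 * b ^ 2), ← Nat.div_add_mod (l y) (8 * b ^ 2), hxy.1, h2]
  rw [card_product, card_range, card_range] at h1
  calc (C.filter fun x => ¬ l x % (8 * b ^ 2) < 7 * b ^ 2).card ≤ b * b ^ 2 := h1
    _ = b ^ 3 := by ring

end

/-- Job CELL. -/
theorem t_CELL : S_CELL := by
  intro α C b l ρ QL QR hb hC hl hρ hlt hQL hQR hQLc hQRc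
  have hL : 0 < 8 * b ^ 2 := by positivity
  have b1 := CELL_bad1 C b l QL hb hl (fun x hx => (hlt x hx).1) hQLc
  have b2 := CELL_bad2 C b l hb hl (fun x hx => (hlt x hx).1)
  have b3 := CELL_bad1 C b ρ QR hb hρ (fun x hx => (hlt x hx).2) hQRc
  have b4 := CELL_bad2 C b ρ hb hρ (fun x hx => (hlt x hx).2)
  set C' : Finset α := C.filter fun x => (l x / (8 * b ^ 2) ∈ QL ∧ l x % (8 * b ^ 2) < 7 * b ^ 2) ∧
    (ρ x / (8 * b ^ 2) ∈ QR ∧ ρ x % (8 * b ^ 2) < 7 * b ^ 2) with hC'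
  have hcov : C ⊆ C' ∪ ((C.filter fun x => l x / (8 * b ^ 2) ∉ QL) ∪
      (C.filter fun x => ¬ l x % (8 * b ^ 2) < 7 * b ^ 2) ∪
      (C.filter fun x => ρ x / (8 * b ^ 2) ∉ QR) ∪
      (C.filter fun x => ¬ ρ x % (8 * b ^ 2) < 7 * b ^ 2)) := by
    intro x hx
    simp only [hC', mem_union, mem_filter]
    tauto
  have hcard := Finset.card_le_card hcov
  have hu1 := Finset.card_union_le C' ((C.filter fun x => l x / (8 * b ^ 2) ∉ QL) ∪
      (C.filter fun x => ¬ l x % (8 * b ^ 2) < 7 * b ^ 2) ∪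
      (C.filter fun x => ρ x / (8 * b ^ 2) ∉ QR) ∪
      (C.filter fun x => ¬ ρ x % (8 * b ^ 2) < 7 * b ^ 2))
  have hu2 := Finset.card_union_le ((C.filter fun x => l x / (8 * b ^ 2) ∉ QL) ∪
      (C.filter fun x => ¬ l x % (8 * b ^ 2) < 7 * b ^ 2) ∪
      (C.filter fun x => ρ x / (8 * b ^ 2) ∉ QR))
      (C.filter fun x => ¬ ρ x % (8 * b ^ 2) < 7 * b ^ 2)
  have hu3 := Finset.card_union_le ((C.filter fun x => l x / (8 * b ^ 2) ∉ QL) ∪
      (C.filter fun x => ¬ l x % (8 * b ^ 2) < 7 * b ^ 2))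
      (C.filter fun x => ρ x / (8 * b ^ 2) ∉ QR)
  have hu4 := Finset.card_union_le (C.filter fun x => l x / (8 * b ^ 2) ∉ QL)
      (C.filter fun x => ¬ l x % (8 * b ^ 2) < 7 * b ^ 2)
  have hC'card : 4 * b ^ 3 ≤ C'.card := by omega
  have hb3 : 1 ≤ b ^ 3 := Nat.one_le_pow _ _ hb
  have hne : C'.Nonempty := by
    rw [← Finset.card_pos]
    omega
  have hmaps : ∀ x ∈ C', (l x / (8 * b ^ 2), ρ x / (8 * b ^ 2)) ∈ QL ×ˢ QR := by
    intro x hx
    rw [hC', mem_filter] at hx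
    exact mem_product.mpr ⟨hx.2.1.1, hx.2.2.1⟩
  obtain ⟨x0, hx0⟩ := hne
  have hcell : (QL ×ˢ QR).card ≤ b ^ 2 := by
    rw [card_product]
    have h1 := Finset.card_le_card hQL
    have h2 := Finset.card_le_card hQR
    rw [card_range] at h1 h2
    calc QL.card * QR.card ≤ b * b := Nat.mul_le_mul h1 h2
      _ = b ^ 2 := by ring
  obtain ⟨⟨j, k⟩, hjk, hge⟩ := Finset.exists_le_card_fiber_of_mul_le_card_of_maps_to
    (s := C') (t := QL ×ˢ QR) (f := fun x => (l x / (8 * b ^ 2), ρ x / (8 * b ^ 2)))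
    (n := 4 * b) hmaps ⟨_, hmaps x0 hx0⟩ (by
      calc (QL ×ˢ QR).card * (4 * b) ≤ b ^ 2 * (4 * b) := Nat.mul_le_mul_right _ hcell
        _ = 4 * b ^ 3 := by ring
        _ ≤ C'.card := hC'card)
  rw [mem_product] at hjk
  refine ⟨j, hjk.1, k, hjk.2, C'.filter fun x => (l x / (8 * b ^ 2), ρ x / (8 * b ^ 2)) = (j, k),
    ?_, hge, ?_⟩
  · exact (Finset.filter_subset _ _).trans (Finset.filter_subset _ _)
  · intro x hx
    rw [mem_filter, hC', mem_filter] at hx
    obtain ⟨⟨_, ⟨_, h2⟩, ⟨_, h4⟩⟩, h5⟩ := hx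
    simp only [Prod.mk.injEq] at h5
    have e1 := Nat.div_add_mod (l x) (8 * b ^ 2)
    have e2 := Nat.div_add_mod (ρ x) (8 * b ^ 2)
    rw [h5.1] at e1
    rw [h5.2] at e2
    refine ⟨?_, ?_, ?_, ?_⟩ <;> omega

end Pool.Agent.V5helper26.IR
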