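import Pool.Agent.V5helper26.IR.Stm

set_option autoImplicit false

open Finset Filter Topology
open scoped Classical

namespace Pool.Agent.V5helper26.IR

section
variable {α : Type} [Fintype α]

theorem FIB_mem {r : α → α → Prop} {M : ℕ} {f : α → ℕ} :
    f ∈ Om r M ↔ (∀ z, f z < M) ∧ ∀ a b, r a b → f a ≤ f b := by
  unfold Om
  rw [mem_filter, Fintype.mem_piFinset]
  simp only [mem_range]

theorem FIB_lo_update {r : α → α → Prop} {x : α} (hx : ¬ r x x) (f : α → ℕ) (u : ℕ) :
    lo r (Function.update f x u) x = lo r f x := by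
  unfold lo
  refine Finset.sup_congr rfl fun z hz => ?_
  have hzx : z ≠ x := by
    rintro rfl
    exact hx (mem_filter.mp hz).2
  rw [Function.update_of_ne hzx]

theorem FIB_hi_update {r : α → α → Prop} {M : ℕ} {x : α} (hx : ¬ r x x) (f : α → ℕ) (u : ℕ) :
    hi r M (Function.update f x u) x = hi r M f x := by
  unfold hi
  congr 1
  refine Finset.sup_congr rfl fun z hz => ?_
  have hzx : z ≠ x := by
    rintro rfl
    exact hx (mem_filter.mp hz).2
  rw [Function.update_of_ne hzx]

theorem FIB_lo_le {r : α → α → Prop} {M : ℕ} {f : α → ℕ} (hf : f ∈ Om r M) (x : α) :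
    lo r f x ≤ f x := by
  rw [FIB_mem] at hf
  unfold lo
  exact Finset.sup_le fun z hz => hf.2 z x (mem_filter.mp hz).2

theorem FIB_le_hi {r : α → α → Prop} {M : ℕ} {f : α → ℕ} (hf : f ∈ Om r M) (x : α) :
    f x ≤ hi r M f x := by
  rw [FIB_mem] at hf
  unfold hi
  have h1 : (univ.filter fun z => r x z).sup (fun z => M - 1 - f z) ≤ M - 1 - f x :=
    Finset.sup_le fun z hz => by
      have := hf.2 x z (mem_filter.mp hz).2
      omega
  have h2 := hf.1 x
  omega

theorem FIB_hi_le {r : α → α → Prop} {M : ℕ} (f : α → ℕ) (x : α) : hi r M f x ≤ M - 1 := by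
  unfold hi
  exact Nat.sub_le _ _

theorem FIB_hi_le_of {r : α → α → Prop} {M : ℕ} {f : α → ℕ} (hf : f ∈ Om r M) {x z : α}
    (h : r x z) : hi r M f x ≤ f z := by
  rw [FIB_mem] at hf
  unfold hi
  have h1 : M - 1 - f z ≤ (univ.filter fun z => r x z).sup (fun z => M - 1 - f z) :=
    Finset.le_sup (f := fun z => M - 1 - f z) (mem_filter.mpr ⟨mem_univ _, h⟩)
  have h2 := hf.1 z
  omega

theorem FIB_le_lo_of {r : α → α → Prop} {f : α → ℕ} {x z : α} (h : r z x) : f z ≤ lo r f x := by
  unfold lo
  exact Finset.le_sup (f := f) (mem_filter.mpr ⟨mem_univ _, h⟩)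

theorem FIB_update {r : α → α → Prop} {M : ℕ} (hM : 1 ≤ M) {x : α} (hx : ¬ r x x)
    {f : α → ℕ} (hf : f ∈ Om r M) {u : ℕ} (h1 : lo r f x ≤ u) (h2 : u ≤ hi r M f x) :
    Function.update f x u ∈ Om r M := by
  have hf' := FIB_mem.mp hf
  rw [FIB_mem]
  have h3 := FIB_hi_le (r := r) (M := M) f x
  constructor
  · intro z
    by_cases hz : z = x
    · subst hz
      rw [Function.update_self]
      omega
    · rw [Function.update_of_ne hz]
      exact hf'.1 z
  · intro a b hab
    by_cases ha : a = x
    · subst ha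
      by_cases hb : b = a
      · subst hb
        exact absurd hab hx
      · rw [Function.update_self, Function.update_of_ne hb]
        exact h2.trans (FIB_hi_le_of hf hab)
    · by_cases hb : b = x
      · subst hb
        rw [Function.update_self, Function.update_of_ne ha]
        exact (FIB_le_lo_of hab).trans h1
      · rw [Function.update_of_ne ha, Function.update_of_ne hb]
        exact hf'.2 a b hab

end

/-- Job FIB. -/
theorem t_FIB : S_FIB := by
  intro α _ r M x hM hx φ
  rw [Finset.sum_sigma']
  refine Finset.sum_bij' (fun f _ => (⟨Function.update f x (lo r f x), f x⟩ : (_ : α → ℕ) × ℕ))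
    (fun p _ => Function.update p.1 x p.2) ?_ ?_ ?_ ?_ ?_
  · intro f hf
    rw [mem_sigma, mem_filter, mem_Icc]
    have h1 := FIB_lo_le hf x
    have h2 := FIB_le_hi hf x
    refine ⟨⟨FIB_update hM hx hf le_rfl (h1.trans h2), ?_⟩, ?_, ?_⟩
    · simp only [Function.update_self]
      rw [FIB_lo_update hx]
    · simp only
      rw [FIB_lo_update hx]
      exact h1
    · simp only
      rw [FIB_hi_update hx]
      exact h2
  · rintro ⟨g, u⟩ hp
    rw [mem_sigma, mem_filter, mem_Icc] at hp
    exact FIB_update hM hx hp.1.1 hp.2.1 hp.2.2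
  · intro f _
    simp only [Function.update_idem, Function.update_eq_self]
  · rintro ⟨g, u⟩ hp
    rw [mem_sigma, mem_filter, mem_Icc] at hp
    simp only at hp
    simp only [Function.update_idem, Function.update_self]
    rw [FIB_lo_update hx, ← hp.1.2, Function.update_eq_self]
  · intro f _
    simp only [Function.update_idem, Function.update_eq_self]

end Pool.Agent.V5helper26.IR
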