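import Pool.Agent.V5helper26.IR.Stm
import Pool.Agent.V5helper98.IR.FIB

set_option autoImplicit false

open Finset Filter Topology
open scoped Classical

namespace Pool.Agent.V5helper26.IR

section
variable {α : Type} [Fintype α]

theorem DUAL_mem {r : α → α → Prop} {M : ℕ} (hM : 1 ≤ M) {f : α → ℕ} (hf : f ∈ Om r M) :
    rev M f ∈ Om (fun a b => r b a) M := by
  rw [FIB_mem] at hf ⊢
  refine ⟨fun z => ?_, fun a b hab => ?_⟩
  · simp only [rev]; omega
  · have := hf.2 b a hab
    simp only [rev]; omega

theorem DUAL_rev {r : α → α → Prop} {M : ℕ} {f : α → ℕ} (hf : f ∈ Om r M) :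
    rev M (rev M f) = f := by
  rw [FIB_mem] at hf
  funext z
  have := hf.1 z
  simp only [rev]; omega

theorem DUAL_card (r : α → α → Prop) {M : ℕ} (hM : 1 ≤ M) (p : (α → ℕ) → Prop) :
    ((Om (fun a b => r b a) M).filter p).card = ((Om r M).filter fun f => p (rev M f)).card := by
  refine Finset.card_bij' (fun f _ => rev M f) (fun f _ => rev M f) ?_ ?_ ?_ ?_
  · intro f hf
    rw [mem_filter] at hf ⊢
    have h1 := DUAL_mem hM hf.1
    refine ⟨h1, ?_⟩
    rw [DUAL_rev hf.1]
    exact hf.2
  · intro f hf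
    rw [mem_filter] at hf ⊢
    exact ⟨DUAL_mem hM hf.1, hf.2⟩
  · intro f hf
    exact DUAL_rev (mem_filter.mp hf).1
  · intro f hf
    exact DUAL_rev (mem_filter.mp hf).1

theorem DUAL_sum (r : α → α → Prop) {M : ℕ} (hM : 1 ≤ M) (X : (α → ℕ) → ℝ) :
    ∑ f ∈ Om (fun a b => r b a) M, X f = ∑ f ∈ Om r M, X (rev M f) := by
  refine Finset.sum_bij' (fun f _ => rev M f) (fun f _ => rev M f) ?_ ?_ ?_ ?_ ?_
  · intro f hf
    exact DUAL_mem hM hf
  · intro f hf
    exact DUAL_mem hM hf
  · intro f hf
    exact DUAL_rev hf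
  · intro f hf
    exact DUAL_rev hf
  · intro f hf
    rw [DUAL_rev hf]

theorem DUAL_card_Om (r : α → α → Prop) {M : ℕ} (hM : 1 ≤ M) :
    (Om (fun a b => r b a) M).card = (Om r M).card := by
  have := DUAL_card r hM (fun _ => True)
  simpa using this

theorem DUAL_loc {r : α → α → Prop} {M : ℕ} (hM : 1 ≤ M) {f : α → ℕ} (hf : f ∈ Om r M) (x : α) :
    lo (fun a b => r b a) (rev M f) x = M - 1 - hi r M f x ∧
    hi (fun a b => r b a) M (rev M f) x = M - 1 - lo r f x ∧
    ln (fun a b => r b a) M (rev M f) x = ln r M f x ∧ lo r f x ≤ f x ∧ f x ≤ hi r M f x ∧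
    hi r M f x ≤ M - 1 := by
  have h1 := FIB_lo_le hf x
  have h2 := FIB_le_hi hf x
  have h3 := FIB_hi_le (r := r) (M := M) f x
  have h4 : lo (fun a b => r b a) (rev M f) x = M - 1 - hi r M f x := by
    have h6 : (univ.filter fun z => r x z).sup (fun z => M - 1 - f z) ≤ M - 1 :=
      Finset.sup_le fun z _ => Nat.sub_le _ _
    have h7 : lo (fun a b => r b a) (rev M f) x =
        (univ.filter fun z => r x z).sup (fun z => M - 1 - f z) := rfl
    have h8 : hi r M f x = M - 1 - (univ.filter fun z => r x z).sup (fun z => M - 1 - f z) := rfl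
    omega
  have h5 : hi (fun a b => r b a) M (rev M f) x = M - 1 - lo r f x := by
    unfold lo hi
    congr 1
    refine Finset.sup_congr rfl fun z _ => ?_
    have := congrFun (DUAL_rev hf) z
    exact this
  refine ⟨h4, h5, ?_, h1, h2, h3⟩
  unfold ln
  rw [h4, h5]
  omega

end

/-- Job DUAL. -/
theorem t_DUAL : S_DUAL := by
  intro α _ r M hM
  refine ⟨fun p => ?_, fun X => ?_, fun f hf x => DUAL_loc hM hf x, fun x hx => ?_⟩
  · unfold pr
    rw [DUAL_card r hM, DUAL_card_Om r hM]
  · unfold ex
    rw [DUAL_sum r hM, DUAL_card_Om r hM]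
  · unfold kap
    rw [DUAL_card_Om r hM]
    congr 2
    have h0 : ((Om (fun a b => r b a) M).filter fun f => f x = lo (fun a b => r b a) f x).card =
        ((Om r M).filter (fun f => rev M f x = lo (fun a b => r b a) (rev M f) x)).card := by
      have := DUAL_card r hM (fun f => f x = lo (fun a b => r b a) f x)
      convert this
    rw [h0]
    have h1 : (Om r M).filter (fun f => rev M f x = lo (fun a b => r b a) (rev M f) x) =
        (Om r M).filter fun f => f x = hi r M f x := by
      refine Finset.filter_congr fun f hf => ?_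
      obtain ⟨h2, _, _, h3, h4, h5⟩ := DUAL_loc hM hf x
      rw [h2]
      simp only [rev]
      omega
    rw [h1]
    have hA := t_FIB α r M x hM hx (fun f => if f x = hi r M f x then 1 else 0)
    have hB := t_FIB α r M x hM hx (fun f => if f x = lo r f x then 1 else 0)
    have hmem : ∀ g ∈ (Om r M).filter (fun g => g x = lo r g x), lo r g x ≤ hi r M g x := by
      intro g hg
      have h := (mem_filter.mp hg).1
      exact (FIB_lo_le h x).trans (FIB_le_hi h x)
    have hA' : ∀ g ∈ (Om r M).filter (fun g => g x = lo r g x),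
        (∑ u ∈ Icc (lo r g x) (hi r M g x),
          (if Function.update g x u x = hi r M (Function.update g x u) x then (1 : ℝ) else 0)) = 1 := by
      intro g hg
      simp only [Function.update_self, FIB_hi_update hx]
      rw [Finset.sum_ite_eq' (Icc (lo r g x) (hi r M g x)) (hi r M g x) (fun _ => (1 : ℝ)),
        if_pos (mem_Icc.mpr ⟨hmem g hg, le_rfl⟩)]
    have hB' : ∀ g ∈ (Om r M).filter (fun g => g x = lo r g x),
        (∑ u ∈ Icc (lo r g x) (hi r M g x),
          (if Function.update g x u x = lo r (Function.update g x u) x then (1 : ℝ) else 0)) = 1 := by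
      intro g hg
      simp only [Function.update_self, FIB_lo_update hx]
      rw [Finset.sum_ite_eq' (Icc (lo r g x) (hi r M g x)) (lo r g x) (fun _ => (1 : ℝ)),
        if_pos (mem_Icc.mpr ⟨le_rfl, hmem g hg⟩)]
    rw [Finset.sum_congr rfl hA'] at hA
    rw [Finset.sum_congr rfl hB'] at hB
    have h6 := hA.trans hB.symm
    rw [← Finset.sum_filter, ← Finset.sum_filter, Finset.sum_const, Finset.sum_const] at h6
    simp only [nsmul_eq_mul, mul_one] at h6
    exact_mod_cast h6

end Pool.Agent.V5helper26.IR
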