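import Pool.Agent.V5helper26.IR.Stm

set_option autoImplicit false

open Finset Filter Topology
open scoped Classical

namespace Pool.Agent.V5helper26.IR

/-- telescoping over disjoint blocks -/
theorem GRP_tel (α : ℕ → ℝ) (L : ℕ) (hL : 1 ≤ L) : ∀ n : ℕ, 1 ≤ n →
    (∀ i j : ℕ, i ≤ j → j < n * L → α i ≤ α j) →
    ∑ i ∈ range n, (α (i * L + (L - 1)) - α (i * L)) ≤ α (n * L - 1) - α 0 := by
  intro n
  induction n with
  | zero => intro h; omega
  | succ n ih =>
    intro _ hm
    rw [Finset.sum_range_succ]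
    rcases Nat.eq_zero_or_pos n with h0 | h0
    · subst h0
      simp
    · have h1 := ih h0 (fun i j hij hj => hm i j hij (by nlinarith))
      have h2 : α (n * L - 1) ≤ α (n * L) := hm _ _ (Nat.sub_le _ _) (by nlinarith)
      have h3 : (n + 1) * L - 1 = n * L + (L - 1) := by
        have : (n + 1) * L = n * L + L := by ring
        omega
      rw [h3]
      linarith

/-- Markov's inequality for a finite family -/
theorem GRP_mk (J : Finset ℕ) (u : ℕ → ℝ) (U : ℝ) (b : ℕ) (hb : 1 ≤ b) (hu : ∀ j ∈ J, 0 ≤ u j)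
    (hs : ∑ j ∈ J, u j ≤ U) : 16 * (J.filter fun j => 16 * U / b < u j).card ≤ b := by
  rcases Finset.eq_empty_or_nonempty (J.filter fun j => 16 * U / b < u j) with h | ⟨j0, hj0⟩
  · rw [h]; simp
  · have hbR : (0 : ℝ) < b := by exact_mod_cast hb
    rw [mem_filter] at hj0
    have h1 : u j0 ≤ ∑ j ∈ J, u j := Finset.single_le_sum hu hj0.1
    have hU0 : 0 ≤ U := (Finset.sum_nonneg hu).trans hs
    have hU : 0 < U := by
      rcases hU0.lt_or_eq with h | h
      · exact h
      · exfalso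
        rw [← h] at hj0 hs
        simp only [mul_zero, zero_div] at hj0
        linarith [hj0.2]
    have h2 : ((J.filter fun j => 16 * U / b < u j).card : ℝ) * (16 * U / b) ≤ U := by
      calc ((J.filter fun j => 16 * U / b < u j).card : ℝ) * (16 * U / b)
          = ∑ _j ∈ J.filter (fun j => 16 * U / b < u j), 16 * U / b := by
            rw [Finset.sum_const, nsmul_eq_mul]
        _ ≤ ∑ j ∈ J.filter (fun j => 16 * U / b < u j), u j :=
            Finset.sum_le_sum fun j hj => (mem_filter.mp hj).2.le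
        _ ≤ ∑ j ∈ J, u j := Finset.sum_le_sum_of_subset_of_nonneg (Finset.filter_subset _ _)
            fun j hj _ => hu j hj
        _ ≤ U := hs
    have h3 : (16 : ℝ) * ((J.filter fun j => 16 * U / b < u j).card : ℝ) ≤ b := by
      have h4 : ((J.filter fun j => 16 * U / b < u j).card : ℝ) * 16 * U ≤ b * U := by
        have := mul_le_mul_of_nonneg_right h2 hbR.le
        have h5 : ((J.filter fun j => 16 * U / b < u j).card : ℝ) * (16 * U / b) * b =
            ((J.filter fun j => 16 * U / b < u j).card : ℝ) * 16 * U := by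
          field_simp
        rw [h5] at this
        linarith
      have := le_of_mul_le_mul_right h4 hU
      linarith
    exact_mod_cast h3

/-- Job GRP. -/
theorem t_GRP : S_GRP := by
  intro ι S N Λ b a hb hΛ hSN hmono htot
  have hbR : (0 : ℝ) < b := by exact_mod_cast hb
  have hN : 0 ≤ N := le_trans (Nat.cast_nonneg _) hSN
  set d : ℕ → ι → ℝ := fun j f => a (8 * b ^ 2 * (j + 1) - 1) f - a (8 * b ^ 2 * j) f with hd
  set s : ℕ → ℕ → ι → ℝ := fun j i f => a (8 * b ^ 2 * j + 7 * b ^ 2 + i * b + (b - 1)) f -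
      a (8 * b ^ 2 * j + 7 * b ^ 2 + i * b) f with hsd
  have hb2 : 1 ≤ b ^ 2 := Nat.one_le_pow _ _ hb
  have hidx : ∀ j < b, 8 * b ^ 2 * (j + 1) ≤ 8 * b ^ 3 := by
    intro j hj
    calc 8 * b ^ 2 * (j + 1) ≤ 8 * b ^ 2 * b := Nat.mul_le_mul_left _ hj
      _ = 8 * b ^ 3 := by ring
  have hd0 : ∀ f ∈ S, ∀ j < b, 0 ≤ d j f := by
    intro f hf j hj
    have h1 := hidx j hj
    have h2 : 8 * b ^ 2 * j ≤ 8 * b ^ 2 * (j + 1) - 1 := by
      have : 8 * b ^ 2 * (j + 1) = 8 * b ^ 2 * j + 8 * b ^ 2 := by ring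
      omega
    have := hmono f hf _ _ h2 (by
      have : 8 * b ^ 2 * (j + 1) = 8 * b ^ 2 * j + 8 * b ^ 2 := by ring
      omega)
    simp only [hd]
    linarith
  have hdsum : ∀ f ∈ S, ∑ j ∈ range b, d j f ≤ Λ := by
    intro f hf
    have h1 := GRP_tel (fun i => a i f) (8 * b ^ 2) (by omega) b hb (fun i j hij hj =>
      hmono f hf i j hij (by
        have : b * (8 * b ^ 2) = 8 * b ^ 3 := by ring
        omega))
    have h2 : ∑ j ∈ range b, d j f = ∑ i ∈ range b,
        (a (i * (8 * b ^ 2) + (8 * b ^ 2 - 1)) f - a (i * (8 * b ^ 2)) f) := by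
      refine Finset.sum_congr rfl fun j _ => ?_
      simp only [hd]
      have e1 : 8 * b ^ 2 * (j + 1) - 1 = j * (8 * b ^ 2) + (8 * b ^ 2 - 1) := by
        have : 8 * b ^ 2 * (j + 1) = j * (8 * b ^ 2) + 8 * b ^ 2 := by ring
        omega
      rw [e1, mul_comm (8 * b ^ 2) j]
    rw [h2]
    have h3 : b * (8 * b ^ 2) - 1 = 8 * b ^ 3 - 1 := by
      congr 1; ring
    have h4 := htot f hf
    simp only [h3] at h1
    linarith
  have hssum : ∀ f ∈ S, ∀ j < b, ∑ i ∈ range b, s j i f ≤ d j f := by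
    intro f hf j hj
    have hj1 := hidx j hj
    have hj2 : 8 * b ^ 2 * (j + 1) = 8 * b ^ 2 * j + 7 * b ^ 2 + b ^ 2 := by ring
    have h1 := GRP_tel (fun i => a (8 * b ^ 2 * j + 7 * b ^ 2 + i) f) b hb b hb (fun i i' hij hi' =>
      hmono f hf _ _ (by omega) (by
        have : b * b = b ^ 2 := by ring
        omega))
    simp only [← add_assoc] at h1
    have h2 : 8 * b ^ 2 * j + 7 * b ^ 2 + (b * b - 1) = 8 * b ^ 2 * (j + 1) - 1 := by
      have : b * b = b ^ 2 := by ring
      omega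
    rw [h2] at h1
    have h3 : a (8 * b ^ 2 * j) f ≤ a (8 * b ^ 2 * j + 7 * b ^ 2 + 0) f :=
      hmono f hf _ _ (by omega) (by omega)
    simp only [hsd, hd]
    linarith
  -- first condition
  have hA := GRP_mk (range b) (fun j => ∑ f ∈ S, d j f) (Λ * N) b hb
    (fun j hj => Finset.sum_nonneg fun f hf => hd0 f hf j (mem_range.mp hj)) (by
      rw [Finset.sum_comm]
      calc ∑ f ∈ S, ∑ j ∈ range b, d j f ≤ ∑ _f ∈ S, Λ := Finset.sum_le_sum fun f hf => hdsum f hf
        _ = S.card * Λ := by rw [Finset.sum_const, nsmul_eq_mul]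
        _ ≤ N * Λ := mul_le_mul_of_nonneg_right hSN hΛ
        _ = Λ * N := mul_comm _ _)
  -- second condition
  have hB := GRP_mk (range b) (fun j => ∑ f ∈ S, d j f ^ 2) (Λ ^ 2 * N) b hb
    (fun j hj => Finset.sum_nonneg fun f hf => sq_nonneg _) (by
      rw [Finset.sum_comm]
      calc ∑ f ∈ S, ∑ j ∈ range b, d j f ^ 2 ≤ ∑ _f ∈ S, Λ ^ 2 := by
            refine Finset.sum_le_sum fun f hf => ?_
            have h1 : ∑ j ∈ range b, d j f ^ 2 ≤ (∑ j ∈ range b, d j f) ^ 2 :=
              Finset.sum_sq_le_sq_sum_of_nonneg fun j hj => hd0 f hf j (mem_range.mp hj)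
            have h2 : 0 ≤ ∑ j ∈ range b, d j f :=
              Finset.sum_nonneg fun j hj => hd0 f hf j (mem_range.mp hj)
            have h3 := hdsum f hf
            nlinarith
        _ = S.card * Λ ^ 2 := by rw [Finset.sum_const, nsmul_eq_mul]
        _ ≤ N * Λ ^ 2 := mul_le_mul_of_nonneg_right hSN (sq_nonneg _)
        _ = Λ ^ 2 * N := mul_comm _ _)
  have hsub : (range b).filter (fun j => ¬ GoodG S N Λ b a j) ⊆
      (range b).filter (fun j => 16 * (Λ * N) / b < ∑ f ∈ S, d j f) ∪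
      (range b).filter (fun j => 16 * (Λ ^ 2 * N) / b < ∑ f ∈ S, d j f ^ 2) := by
    intro j hj
    rw [mem_filter] at hj
    rw [mem_union, mem_filter, mem_filter]
    by_contra hcon
    push Not at hcon
    obtain ⟨hc1, hc2⟩ := hcon
    have h1 := hc1 hj.1
    have h2 := hc2 hj.1
    apply hj.2
    have hjb := mem_range.mp hj.1
    refine ⟨?_, ?_⟩
    · have : 16 * (Λ * N) / b = 16 * (Λ / b) * N := by ring
      rw [this] at h1
      exact h1
    · by_contra hno
      push Not at hno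
      have h3 : ∀ i ∈ range b, 16 * (Λ / b) ^ 2 * N < ∑ f ∈ S, s j i f * d j f := by
        intro i hi
        exact hno i (mem_range.mp hi)
      have h4 : ∑ _i ∈ range b, 16 * (Λ / b) ^ 2 * N < ∑ i ∈ range b, ∑ f ∈ S, s j i f * d j f :=
        Finset.sum_lt_sum_of_nonempty ⟨0, mem_range.mpr hb⟩ h3
      rw [Finset.sum_const, card_range, nsmul_eq_mul] at h4
      have h5 : (b : ℝ) * (16 * (Λ / b) ^ 2 * N) = 16 * (Λ ^ 2 * N) / b := by
        field_simp
      rw [h5, Finset.sum_comm] at h4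
      have h6 : ∑ f ∈ S, ∑ i ∈ range b, s j i f * d j f ≤ ∑ f ∈ S, d j f ^ 2 := by
        refine Finset.sum_le_sum fun f hf => ?_
        rw [← Finset.sum_mul]
        have h7 := hssum f hf j hjb
        have h8 := hd0 f hf j hjb
        nlinarith
      linarith
  have hcard := (Finset.card_le_card hsub).trans (Finset.card_union_le _ _)
  omega

end Pool.Agent.V5helper26.IR
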